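import Pool.Agent.H4.FV.OddT

/-!
# Algebras with the same presentation are isomorphic
-/

set_option autoImplicit false

namespace Pool.Agent.H591.FV

open Pool.Agent.R620.VA
open Pool.Agent.R620.GG
open Pool.Agent.H4.FV.Odd

section sc

variable {p : ℕ} [Fact p.Prime] {A : Type} [NonUnitalNonAssocRing A] [Module (ZMod p) A]

theorem smul_eq_val (c : ZMod p) (x : A) : c • x = c.val • x := by
  rw [← Nat.cast_smul_eq_nsmul (ZMod p) c.val x, ZMod.natCast_zmod_val]

theorem smul_mulA (c : ZMod p) (x y : A) : (c • x) * y = c • (x * y) := by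
  rw [smul_eq_val, smul_eq_val, smul_mul_assoc]

theorem mul_smulA (c : ZMod p) (x y : A) : x * (c • y) = c • (x * y) := by
  rw [smul_eq_val, smul_eq_val, mul_smul_comm]

/-- the bilinear combination as a linear map -/
noncomputable def bl' {B : Type} (s : B → A) : ((B × B) →₀ ZMod p) →ₗ[ZMod p] A :=
  Finsupp.linearCombination (ZMod p) (fun q : B × B => s q.1 * s q.2)

theorem bil_eq {B : Type} (s : B → A) (M : (B × B) →₀ ZMod p) : bil p s M = bl' s M := by
  rw [bil, bl', Finsupp.linearCombination_apply]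

theorem bl'_single {B : Type} (s : B → A) (b b' : B) (r : ZMod p) :
    bl' s (Finsupp.single (b, b') r) = r • (s b * s b') := by
  rw [bl', Finsupp.linearCombination_single]

/-- products of central elements -/
theorem ct_mul (h : Alt2 A) {x : A} (hx : Ct x) (y : A) : y * x = 0 := by
  rw [h.anti, hx y, neg_zero]

theorem ct_add {x y : A} (hx : Ct x) (hy : Ct y) : Ct (x + y) := by
  intro t
  rw [add_mul, hx, hy, add_zero]

theorem ct_neg {x : A} (hx : Ct x) : Ct (-x) := by
  intro t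
  rw [neg_mul, hx, neg_zero]

theorem ct_bl (h : Alt2 A) {B : Type} (s : B → A) (M : (B × B) →₀ ZMod p) : Ct (bl' s M) := by
  induction M using Finsupp.induction_linear with
  | zero => intro t; rw [map_zero, zero_mul]
  | add M N hM hN => rw [map_add]; exact ct_add hM hN
  | single q r =>
    intro t
    obtain ⟨b, b'⟩ := q
    rw [bl'_single, smul_mulA, h.nil, smul_zero]

theorem ct_lin {D : Type} {z : D → A} (hz : ∀ d, Ct (z d)) (c : D →₀ ZMod p) :
    Ct (Finsupp.linearCombination (ZMod p) z c) := by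
  induction c using Finsupp.induction_linear with
  | zero => intro t; rw [map_zero, zero_mul]
  | add M N hM hN => rw [map_add]; exact ct_add hM hN
  | single q r =>
    intro t
    rw [Finsupp.linearCombination_single, smul_mulA, hz, smul_zero]

end sc

section tens

variable {p : ℕ} [Fact p.Prime] {B : Type}

/-- the product of two linear combinations is a bilinear combination with coefficients which do
not depend on the algebra -/
theorem lin_mul (c c' : B →₀ ZMod p) : ∃ T : (B × B) →₀ ZMod p,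
    ∀ (A : Type) [NonUnitalNonAssocRing A] [Module (ZMod p) A] (s : B → A),
      Finsupp.linearCombination (ZMod p) s c * Finsupp.linearCombination (ZMod p) s c' =
        bl' s T := by
  induction c using Finsupp.induction_linear with
  | zero =>
    refine ⟨0, ?_⟩
    intro A _ _ s
    rw [map_zero, map_zero, zero_mul]
  | add M N hM hN =>
    obtain ⟨T1, h1⟩ := hM
    obtain ⟨T2, h2⟩ := hN
    refine ⟨T1 + T2, ?_⟩
    intro A _ _ s
    rw [map_add, map_add, add_mul, h1, h2]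
  | single b r =>
    induction c' using Finsupp.induction_linear with
    | zero =>
      refine ⟨0, ?_⟩
      intro A _ _ s
      rw [map_zero, map_zero, mul_zero]
    | add M N hM hN =>
      obtain ⟨T1, h1⟩ := hM
      obtain ⟨T2, h2⟩ := hN
      refine ⟨T1 + T2, ?_⟩
      intro A _ _ s
      rw [map_add, map_add, mul_add, h1, h2]
    | single b' r' =>
      refine ⟨Finsupp.single (b, b') (r * r'), ?_⟩
      intro A _ _ s
      rw [Finsupp.linearCombination_single, Finsupp.linearCombination_single, smul_mulA,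
        mul_smulA, bl'_single, mul_smul]

/-- the alternating matrix of a product -/
noncomputable def altS (b b' : B) (r : ZMod p) : (B × B) →₀ ZMod p :=
  Finsupp.single (b, b') (r * 2⁻¹) - Finsupp.single (b', b) (r * 2⁻¹)

theorem single_swap (b b' c c' : B) (x : ZMod p) :
    Finsupp.single (b, b') x (c, c') = Finsupp.single (b', b) x (c', c) := by
  classical
  rw [Finsupp.single_apply, Finsupp.single_apply]
  have : ((b, b') = (c, c')) ↔ ((b', b) = (c', c)) := by
    rw [Prod.mk.injEq, Prod.mk.injEq, and_comm]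
  simp only [this]

theorem altS_alt (b b' : B) (r : ZMod p) : AltF (altS b b' r) := by
  constructor
  · intro c
    rw [altS, Finsupp.sub_apply, single_swap b b' c c, sub_self]
  · intro c c'
    rw [altS, Finsupp.sub_apply, Finsupp.sub_apply, single_swap b b' c c', single_swap b' b c c',
      neg_sub]

theorem two_ne (hp : p ≠ 2) : (2 : ZMod p) ≠ 0 := by
  intro h
  have h1 : ((2 : ℕ) : ZMod p) = 0 := by exact_mod_cast h
  rw [ZMod.natCast_eq_zero_iff] at h1
  exact hp ((Nat.prime_dvd_prime_iff_eq (Fact.out : p.Prime) Nat.prime_two).1 h1)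

theorem bl_altS (hp : p ≠ 2) {A : Type} [NonUnitalNonAssocRing A] [Module (ZMod p) A]
    (h : Alt2 A) (s : B → A) (b b' : B) (r : ZMod p) :
    bl' s (altS b b' r) = r • (s b * s b') := by
  rw [altS, map_sub, bl'_single, bl'_single, h.anti (s b') (s b), smul_neg, sub_neg_eq_add,
    ← add_smul]
  congr 1
  have := two_ne hp
  field_simp
  ring

end tens

section main

variable {p : ℕ} [Fact p.Prime] {V : Type} {E : V → V → Prop} {D1 : Type}

theorem alt_zero {B : Type} : AltF (p := p) (0 : (B × B) →₀ ZMod p) :=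
  ⟨fun _ => rfl, fun _ _ => by simp⟩

theorem alt_add {B : Type} {M N : (B × B) →₀ ZMod p} (hM : AltF M) (hN : AltF N) :
    AltF (M + N) := by
  refine ⟨fun b => ?_, fun b b' => ?_⟩
  · rw [Finsupp.add_apply, hM.1, hN.1, add_zero]
  · rw [Finsupp.add_apply, Finsupp.add_apply, hM.2, hN.2, neg_add]

theorem r0_zero : R0 (0 : (Bx V E D1 × Bx V E D1) →₀ ZMod p) :=
  ⟨fun _ => rfl, fun _ => rfl, fun _ => rfl⟩

theorem r0_add {M N : (Bx V E D1 × Bx V E D1) →₀ ZMod p} (hM : R0 M) (hN : R0 N) :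
    R0 (M + N) := by
  refine ⟨fun v => ?_, fun v => ?_, fun q => ?_⟩
  · rw [Finsupp.add_apply, hM.1, hN.1, add_zero]
  · rw [Finsupp.add_apply, hM.2.1, hN.2.1, add_zero]
  · rw [Finsupp.add_apply, hM.2.2, hN.2.2, add_zero]

/-- the normal form of a product -/
theorem nf_single (hp : p ≠ 2) (b b' : Bx V E D1) (r : ZMod p) :
    ∃ N : (Bx V E D1 × Bx V E D1) →₀ ZMod p, AltF N ∧ R0 N ∧
      ∀ (A : Type) [NonUnitalNonAssocRing A] [Module (ZMod p) A] (s : Bx V E D1 → A),
        Alt2 A → PreRel s → r • (s b * s b') = bl' s N := by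
  by_cases h1 : ∃ v : V, b = Sum.inl (Sum.inl (v, 0)) ∧ (b' = Sum.inl (Sum.inl (v, 1)) ∨
      b' = Sum.inl (Sum.inl (v, 2)))
  · obtain ⟨v, rfl, h1⟩ := h1
    refine ⟨0, alt_zero, r0_zero, ?_⟩
    intro A _ _ s hA hs
    rw [map_zero]
    rcases h1 with rfl | rfl
    · rw [hs.r1, smul_zero]
    · rw [hs.r2, smul_zero]
  by_cases h2 : ∃ v : V, b' = Sum.inl (Sum.inl (v, 0)) ∧ (b = Sum.inl (Sum.inl (v, 1)) ∨
      b = Sum.inl (Sum.inl (v, 2)))
  · obtain ⟨v, rfl, h2⟩ := h2
    refine ⟨0, alt_zero, r0_zero, ?_⟩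
    intro A _ _ s hA hs
    rw [map_zero, hA.anti]
    rcases h2 with rfl | rfl
    · rw [hs.r1, neg_zero, smul_zero]
    · rw [hs.r2, neg_zero, smul_zero]
  have hvw : ∀ (v w : V) (r : ZMod p), R0 (altS (Sum.inl (Sum.inl (v, 0)) : Bx V E D1)
      (Sum.inl (Sum.inl (w, 0))) r) := by
    intro v w r
    refine ⟨fun v' => ?_, fun v' => ?_, fun q => ?_⟩
    all_goals
      rw [altS, Finsupp.sub_apply, Finsupp.single_eq_of_ne (by simp),
        Finsupp.single_eq_of_ne (by simp), sub_zero]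
  by_cases h3 : ∃ q : {q : V × V // E q.1 q.2}, b = Sum.inl (Sum.inr (q, 0)) ∧
      b' = Sum.inl (Sum.inr (q, 1))
  · obtain ⟨q, rfl, rfl⟩ := h3
    refine ⟨altS (Sum.inl (Sum.inl (q.1.1, 0))) (Sum.inl (Sum.inl (q.1.2, 0))) (-r),
      altS_alt _ _ _, hvw _ _ _, ?_⟩
    intro A _ _ s hA hs
    rw [bl_altS hp hA, neg_smul, ← smul_neg]
    congr 1
    exact eq_neg_of_add_eq_zero_right (hs.r3 q)
  by_cases h4 : ∃ q : {q : V × V // E q.1 q.2}, b' = Sum.inl (Sum.inr (q, 0)) ∧
      b = Sum.inl (Sum.inr (q, 1))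
  · obtain ⟨q, rfl, rfl⟩ := h4
    refine ⟨altS (Sum.inl (Sum.inl (q.1.1, 0))) (Sum.inl (Sum.inl (q.1.2, 0))) r,
      altS_alt _ _ _, hvw _ _ _, ?_⟩
    intro A _ _ s hA hs
    rw [bl_altS hp hA, hA.anti]
    congr 1
    exact (eq_neg_of_add_eq_zero_left (hs.r3 q)).symm
  refine ⟨altS b b' r, altS_alt _ _ _, ⟨fun v => ?_, fun v => ?_, fun q => ?_⟩, ?_⟩
  · rw [altS, Finsupp.sub_apply, Finsupp.single_eq_of_ne, Finsupp.single_eq_of_ne, sub_zero]
    · intro h
      rw [Prod.mk.injEq] at h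
      exact h2 ⟨v, h.1.symm, Or.inl h.2.symm⟩
    · intro h
      rw [Prod.mk.injEq] at h
      exact h1 ⟨v, h.1.symm, Or.inl h.2.symm⟩
  · rw [altS, Finsupp.sub_apply, Finsupp.single_eq_of_ne, Finsupp.single_eq_of_ne, sub_zero]
    · intro h
      rw [Prod.mk.injEq] at h
      exact h2 ⟨v, h.1.symm, Or.inr h.2.symm⟩
    · intro h
      rw [Prod.mk.injEq] at h
      exact h1 ⟨v, h.1.symm, Or.inr h.2.symm⟩
  · rw [altS, Finsupp.sub_apply, Finsupp.single_eq_of_ne, Finsupp.single_eq_of_ne, sub_zero]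
    · intro h
      rw [Prod.mk.injEq] at h
      exact h4 ⟨q, h.1.symm, h.2.symm⟩
    · intro h
      rw [Prod.mk.injEq] at h
      exact h3 ⟨q, h.1.symm, h.2.symm⟩
  · intro A _ _ s hA hs
    rw [bl_altS hp hA]

/-- the normal form -/
theorem nf (hp : p ≠ 2)
    (M : (Bx V E D1 × Bx V E D1) →₀ ZMod p) :
    ∃ N : (Bx V E D1 × Bx V E D1) →₀ ZMod p, AltF N ∧ R0 N ∧
      ∀ (A : Type) [NonUnitalNonAssocRing A] [Module (ZMod p) A] (s : Bx V E D1 → A),
        Alt2 A → PreRel s → bl' s M = bl' s N := by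
  induction M using Finsupp.induction_linear with
  | zero => exact ⟨0, alt_zero, r0_zero, fun A _ _ s _ _ => rfl⟩
  | add M N hM hN =>
    obtain ⟨M', h1, h2, h3⟩ := hM
    obtain ⟨N', h4, h5, h6⟩ := hN
    refine ⟨M' + N', alt_add h1 h4, r0_add h2 h5, ?_⟩
    intro A _ _ s hA hs
    rw [map_add, map_add, h3 A s hA hs, h6 A s hA hs]
  | single q r =>
    obtain ⟨b, b'⟩ := q
    obtain ⟨N, h1, h2, h3⟩ := nf_single hp b b' r
    refine ⟨N, h1, h2, ?_⟩
    intro A _ _ s hA hs
    rw [bl'_single, h3 A s hA hs]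

/-- relations hold in all algebras with the presentation -/
theorem rel_all (hp : p ≠ 2) {A A' : Type}
    [NonUnitalNonAssocRing A] [Module (ZMod p) A] [NonUnitalNonAssocRing A'] [Module (ZMod p) A']
    {D2 : Type} {s : Bx V E D1 → A} {z : D2 → A} {s' : Bx V E D1 → A'} {z' : D2 → A'}
    (hA : Alt2 A) (hA' : Alt2 A') (h : Pres p s z) (h' : Pres p s' z')
    {M : (Bx V E D1 × Bx V E D1) →₀ ZMod p} (hM : bl' s M = 0) : bl' s' M = 0 := by
  obtain ⟨N, h1, h2, h3⟩ := nf hp M
  have h4 : N = 0 := by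
    apply h.rel N h1 h2
    rw [bil_eq, ← h3 A s hA h.pre, hM]
  rw [h3 A' s' hA' h'.pre, h4, map_zero]

/-- the map of the presentation -/
noncomputable def Phi {A : Type} [NonUnitalNonAssocRing A] [Module (ZMod p) A] {B D2 : Type}
    (s : B → A) (z : D2 → A) :
    ((B →₀ ZMod p) × ((B × B) →₀ ZMod p) × (D2 →₀ ZMod p)) →ₗ[ZMod p] A :=
  (Finsupp.linearCombination (ZMod p) s).coprod
    ((bl' s).coprod (Finsupp.linearCombination (ZMod p) z))

theorem Phi_apply {A : Type} [NonUnitalNonAssocRing A] [Module (ZMod p) A] {B D2 : Type}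
    (s : B → A) (z : D2 → A) (x : (B →₀ ZMod p) × ((B × B) →₀ ZMod p) × (D2 →₀ ZMod p)) :
    Phi s z x = Finsupp.linearCombination (ZMod p) s x.1 +
      (bl' s x.2.1 + Finsupp.linearCombination (ZMod p) z x.2.2) := rfl

theorem Phi_surj {A : Type} [NonUnitalNonAssocRing A] [Module (ZMod p) A] {D2 : Type}
    {s : Bx V E D1 → A} {z : D2 → A} (h : Pres p s z) : Function.Surjective (Phi (p := p) s z) := by
  intro x
  obtain ⟨c, hc⟩ := h.span x
  obtain ⟨d, M, hd⟩ := h.zs _ hc
  refine ⟨(c, M, d), ?_⟩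
  rw [Phi_apply]
  show Finsupp.linearCombination (ZMod p) s c + (bl' s M +
    Finsupp.linearCombination (ZMod p) z d) = x
  rw [← bil_eq, add_comm (bil p s M), ← hd]
  abel

theorem Phi_ker {A : Type} [NonUnitalNonAssocRing A] [Module (ZMod p) A] {D2 : Type}
    {s : Bx V E D1 → A} {z : D2 → A} (hA : Alt2 A) (h : Pres p s z)
    {x : (Bx V E D1 →₀ ZMod p) × ((Bx V E D1 × Bx V E D1) →₀ ZMod p) × (D2 →₀ ZMod p)}
    (hx : Phi s z x = 0) : x.1 = 0 ∧ x.2.2 = 0 ∧ bl' s x.2.1 = 0 := by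
  rw [Phi_apply] at hx
  have h1 : x.1 = 0 := by
    apply h.ind
    rw [eq_neg_of_add_eq_zero_left hx]
    exact ct_neg (ct_add (ct_bl hA s _) (ct_lin h.zc _))
  rw [h1, map_zero, zero_add] at hx
  have h2 : x.2.2 = 0 := by
    apply h.zi x.2.2 (-x.2.1)
    rw [bil_eq, map_neg]
    exact eq_neg_of_add_eq_zero_right hx
  rw [h2, map_zero, add_zero] at hx
  exact ⟨h1, h2, hx⟩

theorem ker_le (hp : p ≠ 2) {A A' : Type}
    [NonUnitalNonAssocRing A] [Module (ZMod p) A] [NonUnitalNonAssocRing A'] [Module (ZMod p) A']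
    {D2 : Type} {s : Bx V E D1 → A} {z : D2 → A} {s' : Bx V E D1 → A'} {z' : D2 → A'}
    (hA : Alt2 A) (hA' : Alt2 A') (h : Pres p s z) (h' : Pres p s' z') :
    LinearMap.ker (Phi (p := p) s z) ≤ LinearMap.ker (Phi (p := p) s' z') := by
  intro x hx
  rw [LinearMap.mem_ker] at hx ⊢
  obtain ⟨h1, h2, h3⟩ := Phi_ker hA h hx
  rw [Phi_apply, h1, h2, rel_all hp hA hA' h h' h3, map_zero, map_zero, add_zero, add_zero]

theorem Phi_mul {A : Type} [NonUnitalNonAssocRing A] [Module (ZMod p) A] {D2 : Type}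
    {s : Bx V E D1 → A} {z : D2 → A} (hA : Alt2 A) (h : Pres p s z)
    (x y : (Bx V E D1 →₀ ZMod p) × ((Bx V E D1 × Bx V E D1) →₀ ZMod p) × (D2 →₀ ZMod p)) :
    Phi s z x * Phi s z y = Finsupp.linearCombination (ZMod p) s x.1 *
      Finsupp.linearCombination (ZMod p) s y.1 := by
  have hc : ∀ x : (Bx V E D1 →₀ ZMod p) × ((Bx V E D1 × Bx V E D1) →₀ ZMod p) ×
      (D2 →₀ ZMod p), Ct (bl' s x.2.1 + Finsupp.linearCombination (ZMod p) z x.2.2) :=
    fun x => ct_add (ct_bl hA s _) (ct_lin h.zc _)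
  rw [Phi_apply, Phi_apply, add_mul, hc x, add_zero, mul_add, ct_mul hA (hc y), add_zero]

theorem iso : S_iso := by
  intro p _ hp A A' _ _ _ _ V E D1 D2 s z s' z' hE hA hA' h h'
  have hker : LinearMap.ker (Phi (p := p) s z) = LinearMap.ker (Phi (p := p) s' z') :=
    le_antisymm (ker_le hp hA hA' h h') (ker_le hp hA' hA h' h)
  let e1 := LinearMap.quotKerEquivOfSurjective (Phi (p := p) s z) (Phi_surj h)
  let e2 := LinearMap.quotKerEquivOfSurjective (Phi (p := p) s' z') (Phi_surj h')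
  let e3 := Submodule.quotEquivOfEq _ _ hker
  have he : ∀ x, (e1.symm.trans (e3.trans e2)) (Phi (p := p) s z x) = Phi (p := p) s' z' x := by
    intro x
    have h1 : e1.symm (Phi (p := p) s z x) = Submodule.Quotient.mk x := by
      rw [LinearEquiv.symm_apply_eq]
      rfl
    rw [LinearEquiv.trans_apply, LinearEquiv.trans_apply, h1]
    rfl
  refine ⟨e1.symm.trans (e3.trans e2), ?_⟩
  intro x y
  obtain ⟨x, rfl⟩ := Phi_surj h x
  obtain ⟨y, rfl⟩ := Phi_surj h y
  rw [he, he, Phi_mul hA h, Phi_mul hA' h']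
  obtain ⟨T, hT⟩ := lin_mul x.1 y.1
  rw [hT A s, hT A' s']
  have h2 := he (0, T, 0)
  rw [Phi_apply, Phi_apply] at h2
  simp only [map_zero, zero_add, add_zero] at h2
  exact h2

end main

end Pool.Agent.H591.FV
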